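import Pool.Agent.PFB.StmtsG

/-!
# PFB squad (MP_e54c4c_gt), row G_ZBX
-/

set_option autoImplicit false

open Matrix Filter Topology

namespace Pool.Agent.PFB.H56

open Pool.Agent.PFS Pool.Agent.PFB

theorem lamC_cl {n : ℕ} {C : Set (V n)} {Γ : Subgroup (GL (Fin n) ℝ)} (P : PCone C) {y : V n}
    (hy : y ∈ LamC C Γ) : y ∈ closure C := by
  obtain ⟨t, ht, u, hu, rfl⟩ := hy
  exact P.cl_smul hu.2.1 ht.le

/-- positive rescaling of the vertices of a box -/
theorem scl (fce : FceStmt) (lin : LinStmt) {n : ℕ} {C : Set (V n)}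
    {Γ : Subgroup (GL (Fin n) ℝ)} (h : CC C Γ) {K d : ℕ} {T : (Fin (K + 2) → V n) → Prop}
    (hT : BFam C Γ K d T) (w : Fin (K + 2) → V n) (hw : T w) (a : Fin (K + 2) → ℝ)
    (ha : ∀ i, 0 < a i) : T (fun i => a i • w i) := by
  have P : PCone C := h.toPCone
  have hp := hT.pes w hw
  have hli := lin n C P (Fin (K + 2)) w hp.1
  have h01 : (0 : Fin (K + 2)) ≠ 1 := by
    intro h
    have := congrArg Fin.val h
    simp at this
  have hpair : ∀ s t : ℝ, s • w 0 + t • w 1 = 0 → s = 0 ∧ t = 0 := by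
    have h1 : LinearIndependent ℝ (w ∘ ![0, 1]) := by
      refine hli.comp _ ?_
      intro i j hij
      fin_cases i <;> fin_cases j <;> simp_all
    have h2 : w ∘ ![0, 1] = ![w 0, w 1] := by
      funext i; fin_cases i <;> rfl
    rw [h2] at h1
    exact LinearIndependent.pair_iff.1 h1
  have c0 : w 0 ∈ closure C := lamC_cl P (hp.2 0)
  have c1 : w 1 ∈ closure C := lamC_cl P (hp.2 1)
  have hx0 : w 0 + w 1 ∈ closure C := P.cl_add c0 c1
  have hxne : w 0 + w 1 ≠ 0 := by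
    intro h0
    have := (hpair 1 1 (by rw [one_smul, one_smul]; exact h0)).1
    exact one_ne_zero this
  obtain ⟨f1, -, -, -, -, f6⟩ := fce n C P (w 0 + w 1) hx0 hxne
  have e0 : a 0 • w 0 ∈ closure (EF C w) := by
    refine f6 _ (subset_closure f1) _ (P.cl_smul c0 (ha 0).le) (a 0) ?_
    have : a 0 • (w 0 + w 1) - a 0 • w 0 = a 0 • w 1 := by rw [smul_add]; abel
    rw [this]
    exact P.cl_smul c1 (ha 0).le
  have e1 : a 1 • w 1 ∈ closure (EF C w) := by
    refine f6 _ (subset_closure f1) _ (P.cl_smul c1 (ha 1).le) (a 1) ?_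
    have : a 1 • (w 0 + w 1) - a 1 • w 1 = a 1 • w 0 := by rw [smul_add]; abel
    rw [this]
    exact P.cl_smul c0 (ha 1).le
  have n0 : a 0 • w 0 ∉ EF C w := by
    rintro ⟨ε, hε, -, h2⟩
    have h3 : a 0 • w 0 - ε • w 1 ∈ closure C := by
      have : a 0 • w 0 - ε • w 1 = (a 0 • w 0 - ε • (w 0 + w 1)) + ε • w 0 := by
        rw [smul_add]; abel
      rw [this]
      exact P.cl_add h2 (P.cl_smul c0 hε.le)
    obtain ⟨c, -, hc⟩ := hT.ext w hw 0 _ (P.cl_smul c1 hε.le) _ h3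
    have h4 : (-c) • w 0 + ε • w 1 = 0 := by rw [hc, neg_smul]; abel
    exact hε.ne' (hpair _ _ h4).2
  have n1 : a 1 • w 1 ∉ EF C w := by
    rintro ⟨ε, hε, -, h2⟩
    have h3 : a 1 • w 1 - ε • w 0 ∈ closure C := by
      have : a 1 • w 1 - ε • w 0 = (a 1 • w 1 - ε • (w 0 + w 1)) + ε • w 1 := by
        rw [smul_add]; abel
      rw [this]
      exact P.cl_add h2 (P.cl_smul c1 hε.le)
    obtain ⟨c, -, hc⟩ := hT.ext w hw 1 _ (P.cl_smul c0 hε.le) _ h3
    have h4 : ε • w 0 + (-c) • w 1 = 0 := by rw [hc, neg_smul]; abel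
    exact hε.ne' (hpair _ _ h4).1
  have hind : LinearIndependent ℝ ![a 0 • w 0, a 1 • w 1] := by
    rw [LinearIndependent.pair_iff]
    intro s t hst
    rw [smul_smul, smul_smul] at hst
    obtain ⟨h1, h2⟩ := hpair _ _ hst
    exact ⟨(mul_eq_zero.1 h1).resolve_right (ha 0).ne',
      (mul_eq_zero.1 h2).resolve_right (ha 1).ne'⟩
  have hch := hT.chord w hw _ e0 n0 _ e1 n1 hind (fun j => a j.succ.succ) (fun j => ha _)
  have heq : chd (a 0 • w 0) (a 1 • w 1) (fun j : Fin K => a j.succ.succ) w =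
      fun i => a i • w i := by
    funext i
    refine Fin.cases ?_ (fun i => ?_) i
    · rfl
    · refine Fin.cases ?_ (fun i => ?_) i
      · rfl
      · rfl
  rwa [heq] at hch

/-- G_ZBX -/
theorem zbx (fce : FceStmt) (evt : EvtStmt) (elm : ElmStmt) (zom : ZomStmt) (lps : LpsStmt)
    (lin : LinStmt) : ZbxStmt := by
  classical
  intro n C Γ h K d T hT hD w hw c hc
  have P : PCone C := h.toPCone
  have hp := hT.pes w hw
  have hli := lin n C P (Fin (K + 2)) w hp.1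
  -- zoom
  have hpC : ∀ m : ℕ, ∑ i, c m i • w i ∈ C := fun m => hp.1.pos _ fun i => hc m i
  have hpH : ∀ m : ℕ, ∑ i, c m i • w i ∈ Hull C Γ := fun m =>
    (elm n C Γ h (Fin (K + 2)) w hp).2.2.2.1 _ fun i => hc m i
  obtain ⟨φ, g, s, q, hφ, hg, hs, hq, hlim⟩ := zom n C Γ h _ hpC hpH
  obtain ⟨x, hx⟩ : ∃ x : ℕ → Fin (K + 2) → V n,
      x = fun m i => s m • act (g m) (c (φ m) i • w i) := ⟨_, rfl⟩
  have hxv : ∀ m i, x m i = s m • act (g m) (c (φ m) i • w i) := fun m i => by rw [hx]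
  have hxT : ∀ m, T (x m) := by
    intro m
    rw [hx]
    exact hT.act _ (scl fce lin h hT w hw (c (φ m)) (hc (φ m))) (g m) (hg m) (s m) (hs m)
  have hxP : ∀ m, IsPES C Γ (x m) := fun m => hT.pes _ (hxT m)
  have hxs : Tendsto (fun m => ∑ i, x m i) atTop (𝓝 q) := by
    refine hlim.congr fun m => ?_
    rw [hx]
    simp only
    rw [CC.act_sum, Finset.smul_sum]
  obtain ⟨φ₂, W, hφ₂, hW, _, hWP⟩ := lps n C Γ h (Fin (K + 2))
    (by rw [Fintype.card_fin]; omega) x q hxP hq hxs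
  have hTW : T W := hT.closed (fun m => x (φ₂ m)) W (fun m => hxT _) hW hWP
  obtain ⟨N, hN⟩ := eventually_atTop.1 (hD (fun m => x (φ₂ m)) W (fun m => hxT _) hTW hW)
  have hW' : ∀ i, Tendsto (fun m => x (φ₂ (m + N)) i) atTop (𝓝 (W i)) := fun i =>
    (tendsto_add_atTop_iff_nat N).2 (hW i)
  obtain ⟨N2, hN2⟩ := eventually_atTop.1
    (evt n C Γ h K d T hT (fun m => x (φ₂ (m + N))) W (fun m => hxT _) hTW hW'
      (fun m => hN _ (by omega)))
  have h01 : (0 : Fin (K + 2)) ≠ 1 := by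
    intro h
    have := congrArg Fin.val h
    simp at this
  have hpair : ∀ s t : ℝ, s • w 0 + t • w 1 = 0 → s = 0 ∧ t = 0 := by
    have h1 : LinearIndependent ℝ (w ∘ ![0, 1]) := by
      refine hli.comp _ ?_
      intro i j hij
      fin_cases i <;> fin_cases j <;> simp_all
    have h2 : w ∘ ![0, 1] = ![w 0, w 1] := by
      funext i; fin_cases i <;> rfl
    rw [h2] at h1
    exact LinearIndependent.pair_iff.1 h1
  have c0 : w 0 ∈ closure C := lamC_cl P (hp.2 0)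
  have c1 : w 1 ∈ closure C := lamC_cl P (hp.2 1)
  have hx0 : w 0 + w 1 ∈ closure C := P.cl_add c0 c1
  have hxne : w 0 + w 1 ≠ 0 := by
    intro h0
    have := (hpair 1 1 (by rw [one_smul, one_smul]; exact h0)).1
    exact one_ne_zero this
  obtain ⟨-, f2, -, -, -, -⟩ := fce n C P (w 0 + w 1) hx0 hxne
  -- the shifted sequence
  refine ⟨fun m => φ (φ₂ (m + N2 + N)), fun m => g (φ₂ (m + N2 + N)),
    fun m => s (φ₂ (m + N2 + N)), W, ?_, fun m => hg _, fun m => hs _, hTW, ?_, ?_, ?_⟩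
  · intro a b hab
    exact hφ (hφ₂ (by omega))
  · intro i
    have h1 : Tendsto (fun m => x (φ₂ (m + N2 + N)) i) atTop (𝓝 (W i)) :=
      (tendsto_add_atTop_iff_nat (f := fun m => x (φ₂ (m + N)) i) N2).2 (hW' i)
    refine h1.congr fun m => ?_
    rw [hxv]
  · intro m y
    have hE := (hN2 (m + N2) (by omega)).1
    rw [← hE]
    beta_reduce
    obtain ⟨k, hk⟩ : ∃ k : ℕ, k = φ₂ (m + N2 + N) := ⟨_, rfl⟩
    rw [← hk]
    have a0 := hc (φ k) 0
    have a1 := hc (φ k) 1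
    obtain ⟨u, hu⟩ : ∃ u : V n, u = c (φ k) 0 • w 0 + c (φ k) 1 • w 1 := ⟨_, rfl⟩
    have hxu : x k 0 + x k 1 = s k • act (g k) u := by
      rw [hxv, hxv, hu, CC.act_add, smul_add]
    have hucl : u ∈ closure C := by
      rw [hu]; exact P.cl_add (P.cl_smul c0 a0.le) (P.cl_smul c1 a1.le)
    have hune : u ≠ 0 := by
      intro h0
      rw [hu] at h0
      exact a0.ne' (hpair _ _ h0).1
    have huF : u ∈ Face C (w 0 + w 1) := by
      obtain ⟨ε, hε, e1, e2, e3, e4⟩ : ∃ ε : ℝ, 0 < ε ∧ ε * c (φ k) 0 ≤ 1 ∧ ε * c (φ k) 1 ≤ 1 ∧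
          ε ≤ c (φ k) 0 ∧ ε ≤ c (φ k) 1 := by
        refine ⟨min (min (c (φ k) 0)⁻¹ (c (φ k) 1)⁻¹) (min (c (φ k) 0) (c (φ k) 1)),
          lt_min (lt_min (inv_pos.2 a0) (inv_pos.2 a1)) (lt_min a0 a1), ?_, ?_, ?_, ?_⟩
        · calc _ ≤ (c (φ k) 0)⁻¹ * c (φ k) 0 :=
              mul_le_mul_of_nonneg_right ((min_le_left _ _).trans (min_le_left _ _)) a0.le
            _ = 1 := inv_mul_cancel₀ a0.ne'
        · calc _ ≤ (c (φ k) 1)⁻¹ * c (φ k) 1 :=
              mul_le_mul_of_nonneg_right ((min_le_left _ _).trans (min_le_right _ _)) a1.le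
            _ = 1 := inv_mul_cancel₀ a1.ne'
        · exact (min_le_right _ _).trans (min_le_left _ _)
        · exact (min_le_right _ _).trans (min_le_right _ _)
      refine ⟨ε, hε, ?_, ?_⟩
      · have : w 0 + w 1 - ε • u = (1 - ε * c (φ k) 0) • w 0 + (1 - ε * c (φ k) 1) • w 1 := by
          rw [hu]; module
        rw [this]
        exact P.cl_add (P.cl_smul c0 (by linarith)) (P.cl_smul c1 (by linarith))
      · have : u - ε • (w 0 + w 1) = (c (φ k) 0 - ε) • w 0 + (c (φ k) 1 - ε) • w 1 := by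
          rw [hu]; module
        rw [this]
        exact P.cl_add (P.cl_smul c0 (by linarith)) (P.cl_smul c1 (by linarith))
    obtain ⟨-, -, f3, -, -, -⟩ := fce n C P u hucl hune
    have h4 := f3 Γ h (g k) (hg k) (s k) (hs k) y
    show s k • act (g k) y ∈ Face C (x k 0 + x k 1) ↔ y ∈ Face C (w 0 + w 1)
    rw [hxu, h4, f2 u huF]
  · intro m j
    obtain ⟨a, ha, hae⟩ := (hN2 (m + N2) (by omega)).2 j
    beta_reduce
    obtain ⟨k, hk⟩ : ∃ k : ℕ, k = φ₂ (m + N2 + N) := ⟨_, rfl⟩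
    rw [← hk] at hae ⊢
    have hcj := hc (φ k) j.succ.succ
    refine ⟨(c (φ k) j.succ.succ)⁻¹ * a, mul_pos (inv_pos.2 hcj) ha, ?_⟩
    rw [hxv, CC.act_smul, smul_comm] at hae
    rw [mul_smul, ← hae, smul_smul, inv_mul_cancel₀ hcj.ne', one_smul]

end Pool.Agent.PFB.H56
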